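import Pool.Agent.Helper77.SD.Net
import Pool.Agent.Helper47.Diss.Color

/-!
# Sidon sets of characters of bounded degree
-/

set_option autoImplicit false

namespace Pool.Agent.Helper77.SD

open Finset Real Pool.Agent.Helper72.Sidon

variable {ι : Type*} [DecidableEq ι] {G : ι → Type*} [∀ i, CommGroup (G i)]
  [∀ i, TopologicalSpace (G i)]

/-- The coordinate functions of a character of a product. -/
noncomputable def coord (i : ι) (γ : PontryaginDual (∀ i, G i)) : G i → Circle :=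
  fun t => γ (Pi.mulSingle i t)

omit [∀ i, TopologicalSpace (G i)] in
theorem prod_mulSingle_finset (S : Finset ι) (x : ∀ i, G i) :
    (∏ i ∈ S, Pi.mulSingle i (x i) : ∀ i, G i) = fun i => if i ∈ S then x i else 1 := by
  classical
  induction S using Finset.induction_on with
  | empty => ext i; simp
  | insert a S ha ih =>
    rw [Finset.prod_insert ha, ih]
    ext i
    rw [Pi.mul_apply]
    by_cases h : i = a
    · subst h
      simp [ha]
    · rw [Pi.mulSingle_eq_of_ne h]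
      simp [h]

/-- A character depending on the coordinates in `S` only is the product of its coordinates. -/
theorem apply_eq_prod {γ : PontryaginDual (∀ i, G i)} {S : Finset ι}
    (hS : ∀ x, (∀ i ∈ S, x i = 1) → γ x = 1) (x : ∀ i, G i) :
    γ x = ∏ i ∈ S, coord i γ (x i) := by
  have h1 : x = (∏ i ∈ S, Pi.mulSingle i (x i) : ∀ i, G i) *
      ((∏ i ∈ S, Pi.mulSingle i (x i) : ∀ i, G i)⁻¹ * x) := by
    rw [mul_inv_cancel_left]
  have h2 : γ ((∏ i ∈ S, Pi.mulSingle i (x i) : ∀ i, G i)⁻¹ * x) = 1 := by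
    apply hS
    intro i hi
    rw [prod_mulSingle_finset, Pi.mul_apply, Pi.inv_apply, if_pos hi, inv_mul_cancel]
  rw [h1, map_mul, h2, mul_one, map_prod, ← h1]
  rfl

/-- The support. -/
noncomputable def supp (γ : PontryaginDual (∀ i, G i)) (S : Finset ι) : Finset ι :=
  open Classical in S.filter (fun i => ∃ t, coord i γ t ≠ 1)

theorem coord_eq_one {γ : PontryaginDual (∀ i, G i)} {S : Finset ι}
    (hS : ∀ x, (∀ i ∈ S, x i = 1) → γ x = 1) {i : ι} (hi : i ∉ supp γ S) (t : G i) :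
    coord i γ t = 1 := by
  classical
  by_cases h : i ∈ S
  · by_contra hcon
    apply hi
    unfold supp
    rw [Finset.mem_filter]
    exact ⟨h, t, hcon⟩
  · apply hS
    intro j hj
    apply Pi.mulSingle_eq_of_ne
    rintro rfl
    exact h hj

theorem apply_eq_prod_supp {γ : PontryaginDual (∀ i, G i)} {S : Finset ι}
    (hS : ∀ x, (∀ i ∈ S, x i = 1) → γ x = 1) (x : ∀ i, G i) :
    γ x = ∏ i ∈ supp γ S, coord i γ (x i) := by
  classical
  rw [apply_eq_prod hS]
  symm
  apply Finset.prod_subset (Finset.filter_subset _ _)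
  intro i _ hi
  exact coord_eq_one hS hi _

theorem norm_prod_sub_le (S : Finset ι) (f g : ι → Circle) {δ : ℝ}
    (h : ∀ i ∈ S, ‖(f i : ℂ) - g i‖ ≤ δ) :
    ‖((∏ i ∈ S, f i : Circle) : ℂ) - (∏ i ∈ S, g i : Circle)‖ ≤ S.card * δ := by
  classical
  induction S using Finset.induction_on with
  | empty => simp
  | insert a S ha ih =>
    rw [Finset.prod_insert ha, Finset.prod_insert ha, Circle.coe_mul, Circle.coe_mul]
    have h1 := ih (fun i hi => h i (Finset.mem_insert_of_mem hi))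
    have h2 := h a (Finset.mem_insert_self a S)
    have h3 : (f a : ℂ) * (∏ i ∈ S, f i : Circle) - (g a : ℂ) * (∏ i ∈ S, g i : Circle) =
        (f a : ℂ) * (((∏ i ∈ S, f i : Circle) : ℂ) - (∏ i ∈ S, g i : Circle)) +
        ((f a : ℂ) - g a) * (∏ i ∈ S, g i : Circle) := by ring
    rw [h3]
    refine (norm_add_le _ _).trans ?_
    rw [norm_mul, norm_mul, Circle.norm_coe, Circle.norm_coe, one_mul, mul_one,
      Finset.card_insert_of_notMem ha]
    push_cast
    linarith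

/-- The net. -/
theorem exists_net {r s N : ℕ} (hN : 0 < N) (A : Finset (PontryaginDual (∀ i, G i)))
    (S : PontryaginDual (∀ i, G i) → Finset ι)
    (hS : ∀ γ ∈ A, ∀ x, (∀ i ∈ S γ, x i = 1) → γ x = 1) (hSr : ∀ γ ∈ A, (S γ).card ≤ r)
    (hF : ∀ i, Set.encard ((fun γ => coord i γ) '' (A : Set (PontryaginDual (∀ i, G i)))) ≤ s) :
    ∃ X : Finset (∀ i, G i),
      X.card ≤ ((2 * N + 1) * (2 * N + 1)) ^ (s * (A.biUnion (fun γ => supp γ (S γ))).card) ∧
      ∀ x, ∃ x' ∈ X, ∀ γ ∈ A, ‖((γ x : Circle) : ℂ) - (γ x' : Circle)‖ ≤ r * (2 / N) := by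
  classical
  set J := A.biUnion (fun γ => supp γ (S γ)) with hJ
  -- the finite sets of coordinate functions
  let F : ∀ i : ι, Finset (G i → Circle) := fun i => A.image (fun γ => coord i γ)
  have hFcard : ∀ i, (F i).card ≤ s := by
    intro i
    have h1 := hF i
    have h2 : ((F i : Finset (G i → Circle)) : Set (G i → Circle)) =
        (fun γ => coord i γ) '' (A : Set (PontryaginDual (∀ i, G i))) := by
      simp [F]
    rw [← h2, Set.encard_coe_eq_coe_finsetCard] at h1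
    exact_mod_cast h1
  -- cells
  let T : Type _ := (i : J) → (F i) → Fin (2 * N + 1) × Fin (2 * N + 1)
  let c : (∀ i, G i) → T := fun x i f => cell N (f.1 (x i))
  have hT : Fintype.card T ≤ ((2 * N + 1) * (2 * N + 1)) ^ (s * J.card) := by
    simp only [T, Fintype.card_pi, Fintype.card_prod, Fintype.card_fin, Finset.prod_const,
      Finset.card_univ, Fintype.card_coe]
    calc ∏ i : J, ((2 * N + 1) * (2 * N + 1)) ^ (F i).card ≤
        ∏ _i : J, ((2 * N + 1) * (2 * N + 1)) ^ s := by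
          apply Finset.prod_le_prod' 
          intro i _
          exact Nat.pow_le_pow_right (by positivity) (hFcard i)
      _ = _ := by
          rw [Finset.prod_const, Finset.card_univ, Fintype.card_coe, ← pow_mul]
  -- representatives
  let g : T → (∀ i, G i) := fun τ => if h : ∃ x, c x = τ then h.choose else 1
  refine ⟨Finset.univ.image g, ?_, ?_⟩
  · refine Finset.card_image_le.trans ?_
    rw [Finset.card_univ]
    exact hT
  · intro x
    refine ⟨g (c x), Finset.mem_image_of_mem _ (Finset.mem_univ _), ?_⟩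
    have hex : ∃ y, c y = c x := ⟨x, rfl⟩
    have hg : c (g (c x)) = c x := by
      simp only [g, dif_pos hex]
      exact hex.choose_spec
    intro γ hγ
    rw [apply_eq_prod_supp (hS γ hγ) x, apply_eq_prod_supp (hS γ hγ) (g (c x))]
    refine (norm_prod_sub_le (supp γ (S γ)) (fun i => coord i γ (x i))
      (fun i => coord i γ (g (c x) i)) (δ := 2 / N) ?_).trans ?_
    · intro i hi
      have hiJ : i ∈ J := Finset.mem_biUnion.2 ⟨γ, hγ, hi⟩
      have hfF : coord i γ ∈ F i := Finset.mem_image_of_mem _ hγ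
      have h1 := congrFun (congrFun hg ⟨i, hiJ⟩) ⟨coord i γ, hfF⟩
      exact cell_close hN h1.symm
    · apply mul_le_mul_of_nonneg_right _ (by positivity)
      have : (supp γ (S γ)).card ≤ r := (Finset.card_filter_le _ _).trans (hSr γ hγ)
      exact_mod_cast this

/-- The bound for the cardinality. -/
theorem card_le_supp {C : ℝ} (hC : 0 < C) (r s : ℕ) : ∃ K : ℕ, ∀ (ι : Type*) [DecidableEq ι]
    (G : ι → Type*) [∀ i, CommGroup (G i)] [∀ i, TopologicalSpace (G i)]
    (Λ : Set (PontryaginDual (∀ i, G i))) (_ : IsSidonWith C Λ)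
    (A : Finset (PontryaginDual (∀ i, G i))) (_ : (A : Set (PontryaginDual (∀ i, G i))) ⊆ Λ)
    (S : PontryaginDual (∀ i, G i) → Finset ι)
    (_ : ∀ γ ∈ A, γ ≠ 1)
    (_ : ∀ γ ∈ A, ∀ x, (∀ i ∈ S γ, x i = 1) → γ x = 1) (_ : ∀ γ ∈ A, (S γ).card ≤ r)
    (_ : ∀ i, Set.encard ((fun γ => coord i γ) '' (A : Set (PontryaginDual (∀ i, G i)))) ≤ s),
    A.card ≤ K * (A.biUnion (fun γ => supp γ (S γ))).card := by
  obtain ⟨N, hN⟩ := exists_nat_gt (8 * C * r)
  have hN0 : 0 < N + 1 := by omega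
  set M : ℕ := (2 * (N + 1) + 1) * (2 * (N + 1) + 1) with hM
  refine ⟨⌈16 * C ^ 2 * (log 4 + s * log M)⌉₊, ?_⟩
  intro ι _ G _ _ Λ hΛ A hA S h1 hS hSr hF
  rcases A.eq_empty_or_nonempty with rfl | ⟨γ0, hγ0⟩
  · simp
  set J := A.biUnion (fun γ => supp γ (S γ)) with hJ
  have hJ1 : 1 ≤ J.card := by
    by_contra hcon
    have hJ0 : J = ∅ := Finset.card_eq_zero.1 (by omega)
    have h2 : supp γ0 (S γ0) = ∅ := by
      rw [← Finset.subset_empty, ← hJ0]
      exact Finset.subset_biUnion_of_mem (fun γ => supp γ (S γ)) hγ0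
    apply h1 γ0 hγ0
    ext x
    rw [apply_eq_prod_supp (hS γ0 hγ0) x, h2, Finset.prod_empty]
    rfl
  obtain ⟨X, hXc, hX⟩ := exists_net hN0 A S hS hSr hF
  have hδ : (r : ℝ) * (2 / ((N + 1 : ℕ) : ℝ)) ≤ 1 / (4 * C) := by
    have hN1 : (0 : ℝ) < ((N + 1 : ℕ) : ℝ) := by positivity
    rw [mul_div_assoc', div_le_div_iff₀ hN1 (by positivity)]
    push_cast
    nlinarith
  have h2 := sidon_card_net hC hδ hΛ A hA X hX
  have hX0 : 0 < X.card := by
    obtain ⟨x', hx', -⟩ := hX 1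
    exact Finset.card_pos.2 ⟨x', hx'⟩
  have hM1 : (1 : ℝ) ≤ M := by
    have : 1 ≤ M := by rw [hM]; exact Nat.succ_le_of_lt (by positivity)
    exact_mod_cast this
  have hlogM : 0 ≤ log M := log_nonneg hM1
  have h3 : log (4 * X.card) ≤ (log 4 + s * log M) * J.card := by
    rw [log_mul (by norm_num) (by positivity)]
    have h4 : log X.card ≤ (s * J.card : ℕ) * log M := by
      rw [← log_pow]
      apply log_le_log (by exact_mod_cast hX0)
      exact_mod_cast hXc
    push_cast at h4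
    have h5 : (1 : ℝ) ≤ J.card := by exact_mod_cast hJ1
    have h6 : 0 ≤ log 4 := log_nonneg (by norm_num)
    nlinarith
  have h4 : (A.card : ℝ) ≤ (16 * C ^ 2 * (log 4 + s * log M)) * J.card := by
    calc (A.card : ℝ) ≤ 16 * C ^ 2 * log (4 * X.card) := h2
      _ ≤ 16 * C ^ 2 * ((log 4 + s * log M) * J.card) :=
          mul_le_mul_of_nonneg_left h3 (by positivity)
      _ = _ := by ring
  have h5 : (A.card : ℝ) ≤ (⌈16 * C ^ 2 * (log 4 + s * log M)⌉₊ : ℝ) * J.card :=
    h4.trans (mul_le_mul_of_nonneg_right (Nat.le_ceil _) (Nat.cast_nonneg _))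
  exact_mod_cast h5

/-- Every member of `E` has a private coordinate. -/
def Private (E : Set (PontryaginDual (∀ i, G i))) : Prop :=
  ∀ γ ∈ E, ∃ i, (∃ t, γ (Pi.mulSingle i t) ≠ 1) ∧
    ∀ γ' ∈ E, γ' ≠ γ → ∀ t, γ' (Pi.mulSingle i t) = 1

/-- Private coordinates give quasi-independence. -/
theorem Private.quasiIndependent {E : Set (PontryaginDual (∀ i, G i))} (hE : Private E) :
    QuasiIndependent E := by
  classical
  intro A hA ε hε hrel γ0 hγ0
  by_contra hne
  obtain ⟨i, ⟨t, ht⟩, hother⟩ := hE γ0 (hA hγ0)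
  have h2 := congrArg (fun γ : PontryaginDual (∀ i, G i) => γ (Pi.mulSingle i t)) hrel
  have h3 : (∏ γ ∈ A, γ ^ ε γ : PontryaginDual (∀ i, G i)) (Pi.mulSingle i t) =
      ∏ γ ∈ A, (coord i γ t) ^ ε γ := by
    have h4 := map_prod (evalHom (G := ∀ i, G i) (Pi.mulSingle i t)) (fun γ => γ ^ ε γ) A
    rw [show (∏ γ ∈ A, γ ^ ε γ : PontryaginDual (∀ i, G i)) (Pi.mulSingle i t) =
      evalHom (G := ∀ i, G i) (Pi.mulSingle i t) (∏ γ ∈ A, γ ^ ε γ) from rfl, h4]
    refine Finset.prod_congr rfl (fun γ _ => ?_)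
    rw [map_zpow]
    rfl
  have h4 : ∏ γ ∈ A, (coord i γ t) ^ ε γ = (coord i γ0 t) ^ ε γ0 := by
    apply Finset.prod_eq_single_of_mem γ0 hγ0
    intro γ hγ hne'
    rw [show coord i γ t = 1 from hother γ (hA hγ) hne' t, one_zpow]
  have h5 : (coord i γ0 t) ^ ε γ0 = 1 := by
    rw [← h4, ← h3]
    exact h2
  apply ht
  rcases hε γ0 hγ0 with h6 | h6 | h6
  · rw [h6, zpow_neg, zpow_one, inv_eq_one] at h5
    exact h5
  · exact absurd h6 hne
  · rw [h6, zpow_one] at h5
    exact h5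

/-- Main theorem. -/
theorem main (C : ℝ) (r s : ℕ) : ∃ K : ℕ, ∀ (ι : Type*) [DecidableEq ι]
    (G : ι → Type*) [∀ i, CommGroup (G i)] [∀ i, TopologicalSpace (G i)]
    (Λ : Set (PontryaginDual (∀ i, G i))), 1 ∉ Λ →
    (∀ γ ∈ Λ, ∃ S : Finset ι, S.card ≤ r ∧ ∀ x, (∀ i ∈ S, x i = 1) → γ x = 1) →
    (∀ i, Set.encard ((fun γ => coord i γ) '' Λ) ≤ s) →
    IsSidonWith C Λ →
    ∃ E : Fin K → Set (PontryaginDual (∀ i, G i)), (∀ i, Private (E i)) ∧ Λ = ⋃ i, E i := by
  obtain ⟨K, hK⟩ := card_le_supp (C := max C 1) (by positivity) r s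
  refine ⟨K * (2 * r + 1), ?_⟩
  intro ι _ G _ _ Λ h1 hdeg hF hSid
  classical
  have hSid' : IsSidonWith (max C 1) Λ := IsSidonWith.mono (le_max_left _ _) hSid
  choose S hSr hS using hdeg
  let S' : PontryaginDual (∀ i, G i) → Finset ι := fun γ => if h : γ ∈ Λ then S γ h else ∅
  have hS'1 : ∀ γ ∈ Λ, (S' γ).card ≤ r := by
    intro γ hγ
    simp only [S', dif_pos hγ]
    exact hSr γ hγ
  have hS'2 : ∀ γ ∈ Λ, ∀ x, (∀ i ∈ S' γ, x i = 1) → γ x = 1 := by
    intro γ hγ
    simp only [S', dif_pos hγ]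
    exact hS γ hγ
  -- Hall
  let t : Λ → Finset (ι × Fin K) := fun γ => supp γ.1 (S' γ.1) ×ˢ Finset.univ
  have hHall : ∀ B : Finset Λ, B.card ≤ (B.biUnion t).card := by
    intro B
    let A : Finset (PontryaginDual (∀ i, G i)) := B.map (Function.Embedding.subtype _)
    have hA : (A : Set (PontryaginDual (∀ i, G i))) ⊆ Λ := by
      intro x hx
      simp only [A, Finset.coe_map, Set.mem_image] at hx
      obtain ⟨y, _, rfl⟩ := hx
      exact y.2
    have h2 := hK ι G Λ hSid' A hA S' (fun γ hγ h => h1 (h ▸ hA hγ)) (fun γ hγ => hS'2 γ (hA hγ))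
      (fun γ hγ => hS'1 γ (hA hγ)) (fun i => (Set.encard_le_encard (Set.image_mono hA)).trans (hF i))
    have h3 : B.biUnion t = (A.biUnion (fun γ => supp γ (S' γ))) ×ˢ (Finset.univ : Finset (Fin K)) := by
      ext ⟨i, j⟩
      simp only [t, A, Finset.mem_biUnion, Finset.mem_product, Finset.mem_univ, and_true,
        Finset.mem_map, Function.Embedding.subtype_apply]
      constructor
      · rintro ⟨γ, hγ, hi⟩
        exact ⟨γ.1, ⟨γ, hγ, rfl⟩, hi⟩
      · rintro ⟨_, ⟨γ, hγ, rfl⟩, hi⟩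
        exact ⟨γ, hγ, hi⟩
    rw [h3, Finset.card_product, Finset.card_univ, Fintype.card_fin]
    rw [Finset.card_map] at h2
    rw [mul_comm]
    exact h2
  obtain ⟨f, hfinj, hft⟩ := (Finset.all_card_le_biUnion_card_iff_exists_injective t).mp hHall
  have hfs : ∀ γ : Λ, (f γ).1 ∈ supp γ.1 (S' γ.1) := by
    intro γ
    have := hft γ
    simp only [t, Finset.mem_product] at this
    exact this.1
  -- conflicts
  let N : Λ → Finset Λ := fun γ =>
    (supp γ.1 (S' γ.1) ×ˢ ({(f γ).2} : Finset (Fin K))).preimage f hfinj.injOn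
  have hN : ∀ γ, (N γ).card ≤ r := by
    intro γ
    have h2 : (N γ).card ≤ (supp γ.1 (S' γ.1) ×ˢ ({(f γ).2} : Finset (Fin K))).card := by
      rw [Finset.card_preimage]
      exact Finset.card_filter_le _ _
    refine h2.trans ?_
    rw [Finset.card_product, Finset.card_singleton, mul_one]
    exact (Finset.card_filter_le _ _).trans (hS'1 γ.1 γ.2)
  obtain ⟨col, hcol⟩ := Pool.Agent.Helper47.Diss.exists_color r N hN
  refine ⟨fun j => {γ | ∃ h : γ ∈ Λ, finProdFinEquiv ((f ⟨γ, h⟩).2, col ⟨γ, h⟩) = j}, ?_, ?_⟩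
  · intro j γ0 hγ0
    obtain ⟨hΛ0, h3⟩ := hγ0
    have hisupp : (f ⟨γ0, hΛ0⟩).1 ∈ supp γ0 (S' γ0) := hfs ⟨γ0, hΛ0⟩
    refine ⟨(f ⟨γ0, hΛ0⟩).1, ?_, ?_⟩
    · unfold supp at hisupp
      rw [Finset.mem_filter] at hisupp
      exact hisupp.2
    · intro γ hγ hne' t
      obtain ⟨hΛγ, h2⟩ := hγ
      apply coord_eq_one (hS'2 γ hΛγ)
      intro hcon
      have h4 := finProdFinEquiv.injective (h2.trans h3.symm)
      have h5 : (f ⟨γ, hΛγ⟩).2 = (f ⟨γ0, hΛ0⟩).2 := congrArg Prod.fst h4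
      have h6 : col ⟨γ, hΛγ⟩ = col ⟨γ0, hΛ0⟩ := congrArg Prod.snd h4
      have h7 : (⟨γ0, hΛ0⟩ : Λ) ∈ N ⟨γ, hΛγ⟩ := by
        simp only [N, Finset.mem_preimage, Finset.mem_product, Finset.mem_singleton]
        exact ⟨hcon, h5.symm⟩
      exact hcol ⟨γ, hΛγ⟩ ⟨γ0, hΛ0⟩ h7 (fun h => hne' (congrArg Subtype.val h).symm) h6.symm
  · ext γ
    simp only [Set.mem_iUnion]
    constructor
    · intro h
      exact ⟨_, h, rfl⟩
    · rintro ⟨j, h, _⟩
      exact h

end Pool.Agent.Helper77.SD
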