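import Pool.Agent.Helper72.Sidon.Analysis

/-!
# Sidon sets and approximate nets
-/

set_option autoImplicit false

namespace Pool.Agent.Helper77.SD

open Finset Real Pool.Agent.Helper72.Sidon

variable {G : Type*} [CommGroup G] [TopologicalSpace G]

/-- cardinality estimate for Sidon sets, from an approximate net -/
lemma sidon_card_net {C δ : ℝ} (hC : 0 < C) (hδ : δ ≤ 1 / (4 * C)) {Λ : Set (PontryaginDual G)}
    (h : IsSidonWith C Λ)
    (A : Finset (PontryaginDual G)) (hA : (A : Set (PontryaginDual G)) ⊆ Λ)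
    (X : Finset G) (hX : ∀ x : G, ∃ x' ∈ X, ∀ γ ∈ A, ‖((γ x : Circle) : ℂ) - (γ x' : Circle)‖ ≤ δ) :
    (#A : ℝ) ≤ 16 * C ^ 2 * log (4 * #X) := by
  classical
  set R : Finset (A → ℝ) := X.image (fun x => fun γ : A => ((γ.1 x : Circle) : ℂ).re) ∪
    X.image (fun x => fun γ : A => ((γ.1 x : Circle) : ℂ).im) with hR
  obtain ⟨x0, hx0, -⟩ := hX 1
  have hXpos : (0 : ℝ) < #X := by exact_mod_cast Finset.card_pos.mpr ⟨x0, hx0⟩
  have hRne : R.Nonempty := ⟨_, Finset.mem_union_left _ (Finset.mem_image_of_mem _ hx0)⟩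
  have hRcard : #R ≤ 2 * #X := by
    calc #R ≤ _ := Finset.card_union_le _ _
      _ ≤ #X + #X := add_le_add Finset.card_image_le Finset.card_image_le
      _ = 2 * #X := by ring
  have hR1 : ∀ r ∈ R, ∀ a, |r a| ≤ 1 := by
    intro r hr a
    rw [hR, Finset.mem_union, Finset.mem_image, Finset.mem_image] at hr
    rcases hr with ⟨x, -, rfl⟩ | ⟨x, -, rfl⟩
    · exact (Complex.abs_re_le_norm _).trans (Circle.norm_coe _).le
    · exact (Complex.abs_im_le_norm _).trans (Circle.norm_coe _).le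
  obtain ⟨σ, hσ, hσR⟩ := exists_signs R hR1 hRne (1 / (2 * C))
  rw [Fintype.card_coe] at hσR
  have hRpos : (0 : ℝ) < #R := by exact_mod_cast hRne.card_pos
  set M : ℝ := 2 * C * (log (4 * #X) + (1 / (2 * C)) ^ 2 * #A / 2) with hM
  have hσR' : ∀ r ∈ R, |∑ a, σ a * r a| ≤ M := by
    intro r hr
    have h1 := hσR r hr
    have h2 : log (2 * #R) ≤ log (4 * #X) := by
      apply log_le_log (by positivity)
      have : (#R : ℝ) ≤ 2 * #X := by exact_mod_cast hRcard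
      linarith
    have h3 : 1 / (2 * C) * |∑ a, σ a * r a| ≤ log (4 * #X) + (1 / (2 * C)) ^ 2 * #A / 2 := by
      linarith
    rw [hM]
    calc |∑ a, σ a * r a| = 2 * C * (1 / (2 * C) * |∑ a, σ a * r a|) := by
          field_simp
      _ ≤ _ := mul_le_mul_of_nonneg_left h3 (by positivity)
  -- apply the Sidon inequality
  let a : PontryaginDual G → ℂ := fun γ => if hγ : γ ∈ A then ((σ ⟨γ, hγ⟩ : ℝ) : ℂ) else 0
  have hs := h A hA a
  have ha1 : ∀ γ ∈ A, ‖a γ‖ = 1 := by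
    intro γ hγ
    simp only [a, dif_pos hγ]
    rcases hσ ⟨γ, hγ⟩ with h1 | h1 <;> rw [h1] <;> simp
  have hsum : ∑ γ ∈ A, ‖a γ‖ = #A := by
    rw [Finset.sum_congr rfl ha1]
    simp
  have hsup : (⨆ x : G, ‖∑ γ ∈ A, a γ * (γ x : ℂ)‖) ≤ 2 * M + δ * #A := by
    apply ciSup_le
    intro x
    obtain ⟨x', hx', hxx'⟩ := hX x
    have hdiff : ‖∑ γ ∈ A, a γ * ((γ x : Circle) : ℂ) - ∑ γ ∈ A, a γ * ((γ x' : Circle) : ℂ)‖ ≤ δ * #A := by
      rw [← Finset.sum_sub_distrib]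
      refine (norm_sum_le _ _).trans ?_
      have : ∀ γ ∈ A, ‖a γ * ((γ x : Circle) : ℂ) - a γ * ((γ x' : Circle) : ℂ)‖ ≤ δ := by
        intro γ hγ
        rw [← mul_sub, norm_mul, ha1 γ hγ, one_mul]
        exact hxx' γ hγ
      refine (Finset.sum_le_sum this).trans ?_
      rw [Finset.sum_const, nsmul_eq_mul, mul_comm]
    have heq : ∑ γ ∈ A, a γ * (γ x' : ℂ) = ∑ γ : A, ((σ γ : ℝ) : ℂ) * ((γ.1 x' : Circle) : ℂ) := by
      rw [← Finset.sum_coe_sort A]
      apply Finset.sum_congr rfl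
      intro γ _
      simp only [a, dif_pos γ.2]
    have hmain : ‖∑ γ ∈ A, a γ * ((γ x' : Circle) : ℂ)‖ ≤ 2 * M := by
      rw [heq]
      refine (Complex.norm_le_abs_re_add_abs_im _).trans ?_
      have hre : (∑ γ : A, ((σ γ : ℝ) : ℂ) * ((γ.1 x' : Circle) : ℂ)).re
          = ∑ γ : A, σ γ * ((γ.1 x' : Circle) : ℂ).re := by
        rw [Complex.re_sum]
        apply Finset.sum_congr rfl
        intro γ _
        rw [Complex.re_ofReal_mul]
      have him : (∑ γ : A, ((σ γ : ℝ) : ℂ) * ((γ.1 x' : Circle) : ℂ)).im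
          = ∑ γ : A, σ γ * ((γ.1 x' : Circle) : ℂ).im := by
        rw [Complex.im_sum]
        apply Finset.sum_congr rfl
        intro γ _
        rw [Complex.im_ofReal_mul]
      rw [hre, him]
      have h1 : |∑ γ : A, σ γ * ((γ.1 x' : Circle) : ℂ).re| ≤ M :=
        hσR' (fun γ : A => ((γ.1 x' : Circle) : ℂ).re)
          (Finset.mem_union_left _ (Finset.mem_image_of_mem _ hx'))
      have h2 : |∑ γ : A, σ γ * ((γ.1 x' : Circle) : ℂ).im| ≤ M :=
        hσR' (fun γ : A => ((γ.1 x' : Circle) : ℂ).im)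
          (Finset.mem_union_right _ (Finset.mem_image_of_mem _ hx'))
      linarith
    have h3 := norm_sub_norm_le (∑ γ ∈ A, a γ * ((γ x : Circle) : ℂ)) (∑ γ ∈ A, a γ * ((γ x' : Circle) : ℂ))
    linarith
  rw [hsum] at hs
  have hfin : (#A : ℝ) ≤ C * (2 * M + δ * #A) := hs.trans (mul_le_mul_of_nonneg_left hsup hC.le)
  have hMexp : C * (2 * M) = 4 * C ^ 2 * log (4 * #X) + #A / 2 := by
    rw [hM]
    field_simp
    ring
  have hδ' : C * (δ * #A) ≤ #A / 4 := by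
    have h1 : C * δ ≤ 1 / 4 := by
      calc C * δ ≤ C * (1 / (4 * C)) := mul_le_mul_of_nonneg_left hδ hC.le
        _ = 1 / 4 := by field_simp
    have h2 : (0 : ℝ) ≤ #A := Nat.cast_nonneg _
    nlinarith
  rw [mul_add, hMexp] at hfin
  linarith

/-- A finite colouring of the circle with small classes. -/
noncomputable def cell (N : ℕ) (z : Circle) : Fin (2 * N + 1) × Fin (2 * N + 1) :=
  (⟨⌊((z : ℂ).re + 1) * N⌋₊, by
    have h1 : ((z : ℂ).re + 1) * N ≤ 2 * N := by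
      have := (Complex.re_le_norm (z : ℂ)).trans (Circle.norm_coe z).le
      have h2 : (0 : ℝ) ≤ N := Nat.cast_nonneg _
      nlinarith
    have h3 := Nat.floor_le_floor h1
    have h4 : ⌊(2 * N : ℝ)⌋₊ = 2 * N := by
      rw [show (2 * N : ℝ) = ((2 * N : ℕ) : ℝ) by push_cast; rfl, Nat.floor_natCast]
    omega⟩,
  ⟨⌊((z : ℂ).im + 1) * N⌋₊, by
    have h1 : ((z : ℂ).im + 1) * N ≤ 2 * N := by
      have := (Complex.im_le_norm (z : ℂ)).trans (Circle.norm_coe z).le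
      have h2 : (0 : ℝ) ≤ N := Nat.cast_nonneg _
      nlinarith
    have h3 := Nat.floor_le_floor h1
    have h4 : ⌊(2 * N : ℝ)⌋₊ = 2 * N := by
      rw [show (2 * N : ℝ) = ((2 * N : ℕ) : ℝ) by push_cast; rfl, Nat.floor_natCast]
    omega⟩)

lemma floor_close {N : ℕ} (hN : 0 < N) {u v : ℝ} (hu : 0 ≤ u + 1) (hv : 0 ≤ v + 1)
    (h : ⌊(u + 1) * N⌋₊ = ⌊(v + 1) * N⌋₊) : |u - v| ≤ 1 / N := by
  have hN' : (0 : ℝ) < N := by exact_mod_cast hN
  have h1 := Nat.floor_le (mul_nonneg hu hN'.le)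
  have h2 := Nat.lt_floor_add_one ((u + 1) * N)
  have h3 := Nat.floor_le (mul_nonneg hv hN'.le)
  have h4 := Nat.lt_floor_add_one ((v + 1) * N)
  rw [h] at h1 h2
  rw [le_div_iff₀ hN', ← abs_of_pos hN', ← abs_mul, abs_le]
  constructor <;> nlinarith

lemma cell_close {N : ℕ} (hN : 0 < N) {z w : Circle} (h : cell N z = cell N w) :
    ‖(z : ℂ) - w‖ ≤ 2 / N := by
  have hbd : ∀ z : Circle, 0 ≤ (z : ℂ).re + 1 ∧ 0 ≤ (z : ℂ).im + 1 := by
    intro z
    have h1 := (Complex.abs_re_le_norm (z : ℂ)).trans (Circle.norm_coe z).le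
    have h2 := (Complex.abs_im_le_norm (z : ℂ)).trans (Circle.norm_coe z).le
    rw [abs_le] at h1 h2
    constructor <;> linarith [h1.1, h2.1]
  have h1 := congrArg Prod.fst h
  have h2 := congrArg Prod.snd h
  unfold cell at h1 h2
  have h3 := floor_close hN (hbd z).1 (hbd w).1 (Fin.mk.inj_iff.1 h1)
  have h4 := floor_close hN (hbd z).2 (hbd w).2 (Fin.mk.inj_iff.1 h2)
  refine (Complex.norm_le_abs_re_add_abs_im _).trans ?_
  rw [Complex.sub_re, Complex.sub_im]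
  have : (2 : ℝ) / N = 1 / N + 1 / N := by ring
  linarith

end Pool.Agent.Helper77.SD
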